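import Pool.Agent.H46.FI.SSQ

/-!
# MP_7500ea_al, board fi_modules, row KCN: the number of characters over a central character
-/

open _root_.FI AMc AMt

open scoped Classical ComplexConjugate

namespace Pool.Agent.H46.FI

/-- row KCN -/
theorem pf_KCN (h1 : T_ABL) : T_KCN := by
  intro Γ _ _ Z M hZM hc Y _ _ q hq hqk ν hν
  obtain ⟨fs, hfs, -⟩ := _root_.FI.Lib.lS9 Γ M
  have hfin : (Ab M ν).Finite := by
    apply (fs.finite_toSet).subset
    intro χ hχ
    exact (hfs χ).2 hχ.1
  haveI : Fintype (Ab M ν) := hfin.fintype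
  haveI : Fintype (ConjClasses Y) := Fintype.ofFinite _
  have hM0 : (Nat.card M : ℂ) ≠ 0 := by
    have : 0 < Nat.card M := Nat.card_pos
    exact_mod_cast this.ne'
  -- representatives
  have hrep : ∀ c : ConjClasses Y, ∃ m : M, ConjClasses.mk (q m) = c := by
    intro c
    obtain ⟨y, hy⟩ := ConjClasses.mk_surjective c
    obtain ⟨m, hm⟩ := hq y
    exact ⟨m, by rw [hm, hy]⟩
  choose r hr using hrep
  have hli : LinearIndependent ℂ
      (fun (χ : Ab M ν) => fun (c : ConjClasses Y) => (χ : Γ → ℂ) (r c)) := by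
    rw [Fintype.linearIndependent_iff]
    intro a ha χ'
    -- the combination vanishes
    have hF : ∀ x : Γ, ∑ χ : Ab M ν, a χ * (χ : Γ → ℂ) x = 0 := by
      intro x
      by_cases hx : x ∈ M
      · set c : ConjClasses Y := ConjClasses.mk (q ⟨x, hx⟩) with hcdef
        have h2 : IsConj (q (r c)) (q ⟨x, hx⟩) := by
          rw [← ConjClasses.mk_eq_mk_iff_isConj, hr c]
        obtain ⟨y, hy⟩ := isConj_iff.1 h2
        obtain ⟨m, hm⟩ := hq y
        -- x = z * (m * r * m⁻¹)
        have h3 : q (⟨x, hx⟩ * (m * r c * m⁻¹)⁻¹) = 1 := by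
          rw [map_mul, map_inv, map_mul, map_mul, map_inv, hm, hy]; group
        have h4 := (hqk _).1 h3
        set z : Γ := ((⟨x, hx⟩ * (m * r c * m⁻¹)⁻¹ : M) : Γ) with hz
        have h5 : x = z * ((m : Γ) * (r c : Γ) * (m : Γ)⁻¹) := by
          rw [hz]; push_cast; group
        have h6 : ∀ χ : Ab M ν, a χ * (χ : Γ → ℂ) x
            = ν z * (a χ * (χ : Γ → ℂ) (r c)) := by
          intro χ
          have h7 := (cenmul h1 Z M hZM hc ν hν χ χ.2 z h4).2
            ((m : Γ) * (r c : Γ) * (m : Γ)⁻¹)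
          rw [← h5] at h7
          rw [h7, (_root_.FI.Lib.lS1 Γ M χ χ.2.1).2.1 m m.2 (r c)]
          ring
        rw [Finset.sum_congr rfl (fun χ _ => h6 χ), ← Finset.mul_sum]
        have h8 := congrFun ha c
        simp only [Finset.sum_apply, Pi.smul_apply, smul_eq_mul, Pi.zero_apply] at h8
        rw [h8, mul_zero]
      · apply Finset.sum_eq_zero
        intro χ _
        rw [(_root_.FI.Lib.lS1 Γ M χ χ.2.1).1 x hx, mul_zero]
    have hsum : ∑ g : Γ, (∑ χ : Ab M ν, a χ * (χ : Γ → ℂ) g) * conj ((χ' : Γ → ℂ) g)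
        = a χ' * (Nat.card M : ℂ) := by
      have : ∀ g : Γ, (∑ χ : Ab M ν, a χ * (χ : Γ → ℂ) g) * conj ((χ' : Γ → ℂ) g)
          = ∑ χ : Ab M ν, a χ * ((χ : Γ → ℂ) g * conj ((χ' : Γ → ℂ) g)) := by
        intro g
        rw [Finset.sum_mul]
        apply Finset.sum_congr rfl
        intro χ _; ring
      rw [Finset.sum_congr rfl (fun g _ => this g), Finset.sum_comm]
      have h2 : ∀ χ : Ab M ν, ∑ g, a χ * ((χ : Γ → ℂ) g * conj ((χ' : Γ → ℂ) g))
          = if χ = χ' then a χ' * (Nat.card M : ℂ) else 0 := by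
        intro χ
        rw [← Finset.mul_sum, _root_.FI.Lib.lS2 Γ M χ χ' χ.2.1 χ'.2.1]
        by_cases h : χ = χ'
        · rw [if_pos h, if_pos (by rw [h]), h]
        · rw [if_neg h, if_neg (fun h' => h (Subtype.ext h')), mul_zero]
      rw [Finset.sum_congr rfl (fun χ _ => h2 χ), Finset.sum_ite_eq' Finset.univ χ']
      simp
    have h0 : ∑ g : Γ, (∑ χ : Ab M ν, a χ * (χ : Γ → ℂ) g) * conj ((χ' : Γ → ℂ) g) = 0 := by
      apply Finset.sum_eq_zero
      intro g _
      rw [hF g, zero_mul]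
    rw [hsum] at h0
    exact (mul_eq_zero.1 h0).resolve_right hM0
  have hcard := hli.fintype_card_le_finrank
  rw [Module.finrank_fintype_fun_eq_card] at hcard
  have hk : kk M ν = Fintype.card (Ab M ν) := by
    show (Ab M ν).ncard = _
    rw [← Nat.card_coe_set_eq, Nat.card_eq_fintype_card]
  rw [hk, Nat.card_eq_fintype_card]
  exact hcard

end Pool.Agent.H46.FI
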