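import Pool.Agent.H6.FI.TargetsA

/-!
# Row ND: numerical, Dixon's bound in the primitive case
-/

set_option autoImplicit false

namespace Pool.Agent.H46.FI

open _root_.FI

theorem c0_pos : 0 < c0 := by
  unfold c0
  positivity

theorem c0_cube : c0 ^ 3 = 24 := by
  unfold c0
  rw [← Real.rpow_natCast, ← Real.rpow_mul (by norm_num)]
  norm_num

theorem two_le : 2 ≤ c0 := by
  have h := c0_cube
  by_contra hc
  push Not at hc
  have h1 : c0 ^ 3 < 2 ^ 3 := pow_lt_pow_left₀ hc c0_pos.le (by norm_num)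
  rw [h] at h1
  norm_num at h1

theorem six_le : 6 ≤ c0 ^ 2 := by
  have h := c0_cube
  by_contra hc
  push Not at hc
  have h1 : (c0 ^ 2) ^ 3 < 6 ^ 3 := pow_lt_pow_left₀ hc (pow_pos c0_pos 2).le (by norm_num)
  have h2 : (c0 ^ 2) ^ 3 = (c0 ^ 3) ^ 2 := by ring
  rw [h2, h] at h1
  norm_num at h1

theorem big (n : ℕ) (hn : 5 ≤ n) : n ^ 39 ≤ 24 ^ (4 * n) := by
  induction n, hn using Nat.le_induction with
  | base => norm_num
  | succ n hn ih =>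
    have h1 : 5 * (n + 1) ≤ 6 * n := by omega
    have h2 : (5 * (n + 1)) ^ 39 ≤ (6 * n) ^ 39 := Nat.pow_le_pow_left h1 39
    rw [mul_pow, mul_pow] at h2
    have h3 : (6 : ℕ) ^ 39 ≤ 5 ^ 39 * 24 ^ 4 := by norm_num
    have h4 : 5 ^ 39 * (n + 1) ^ 39 ≤ 5 ^ 39 * (24 ^ 4 * 24 ^ (4 * n)) := by
      calc 5 ^ 39 * (n + 1) ^ 39 ≤ 6 ^ 39 * n ^ 39 := h2
        _ ≤ (5 ^ 39 * 24 ^ 4) * 24 ^ (4 * n) := Nat.mul_le_mul h3 ih
        _ = 5 ^ 39 * (24 ^ 4 * 24 ^ (4 * n)) := by rw [Nat.mul_assoc]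
    have h5 := Nat.le_of_mul_le_mul_left h4 (by positivity)
    calc (n + 1) ^ 39 ≤ 24 ^ 4 * 24 ^ (4 * n) := h5
      _ = 24 ^ (4 * (n + 1)) := by rw [← pow_add]; ring_nf

theorem pf_ND : T_ND := by
  intro n m hn hm h
  have hc := c0_pos
  rcases (by omega : n = 2 ∨ n = 3 ∨ n = 4 ∨ 5 ≤ n) with rfl | rfl | rfl | h5
  · have h1 : (m : ℝ) ≤ 2 := by exact_mod_cast hm
    calc (m : ℝ) ≤ 2 := h1
      _ ≤ c0 ^ (2 - 1) := by simpa using two_le
  · have h1 : (m : ℝ) ≤ 6 := by exact_mod_cast hm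
    calc (m : ℝ) ≤ 6 := h1
      _ ≤ c0 ^ (3 - 1) := by simpa using six_le
  · have h1 : (m : ℝ) ≤ 24 := by exact_mod_cast hm
    calc (m : ℝ) ≤ 24 := h1
      _ = c0 ^ (4 - 1) := by rw [show 4 - 1 = 3 from rfl, c0_cube]
  · have h1 : (n : ℝ) ^ ((13 : ℝ) / 4) ≤ c0 ^ n := by
      have h2 : ((n : ℝ) ^ ((13 : ℝ) / 4)) ^ 12 ≤ (c0 ^ n) ^ 12 := by
        rw [← Real.rpow_natCast ((n : ℝ) ^ ((13 : ℝ) / 4)), ← Real.rpow_mul (by positivity)]
        have e1 : (13 : ℝ) / 4 * ((12 : ℕ) : ℝ) = ((39 : ℕ) : ℝ) := by norm_num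
        rw [e1, Real.rpow_natCast]
        have e2 : (c0 ^ n) ^ 12 = (24 : ℝ) ^ (4 * n) := by
          rw [← c0_cube, ← pow_mul, ← pow_mul]
          congr 1
          ring
        rw [e2]
        exact_mod_cast big n h5
      exact le_of_pow_le_pow_left₀ (by norm_num) (by positivity) h2
    have h3 : c0 * m ≤ c0 * c0 ^ (n - 1) := by
      calc c0 * m ≤ (n : ℝ) ^ ((13 : ℝ) / 4) := h
        _ ≤ c0 ^ n := h1
        _ = c0 * c0 ^ (n - 1) := by rw [← pow_succ', Nat.sub_add_cancel (by omega)]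
    exact le_of_mul_le_mul_left h3 hc

end Pool.Agent.H46.FI
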