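import Pool.Agent.H6.FI.TargetsB
import Pool.Agent.H6.FI.Lib

/-!
# MP_7500ea_al, board fi_modules, row SSQ: the sum of squares of the degrees over a central character
-/

open _root_.FI AMc AMt

open scoped Classical ComplexConjugate

namespace Pool.Agent.H46.FI

/-- a character over a character of a central subgroup transforms by it -/
theorem cenmul (h1 : T_ABL) {Γ : Type} [Group Γ] [Fintype Γ] (Z M : Subgroup Γ) (hZM : Z ≤ M)
    (hc : ∀ z ∈ Z, ∀ g ∈ M, z * g = g * z) (ν : Γ → ℂ) (hν : ν ∈ IrrS Z)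
    (χ : Γ → ℂ) (hχ : χ ∈ Ab M ν) :
    ∀ z ∈ Z, (χ z = χ 1 * ν z) ∧ ∀ x, χ (z * x) = ν z * χ x := by
  have hχM : χ ∈ IrrS M := hχ.1
  have hov : Over χ ν := hχ.2
  obtain ⟨s1, s2, ⟨d, hd, hd1⟩, s4, s5, s6⟩ := _root_.FI.Lib.lS1 Γ M χ hχM
  have hν1 : ν 1 = 1 := (h1 Γ Z (fun a ha b hb => hc a ha b (hZM hb)) ν hν).1
  have hχ1 : χ 1 ≠ 0 := by
    rw [hd1]; exact_mod_cast hd.ne'
  have hM0 : (Nat.card M : ℂ) ≠ 0 := by
    have : 0 < Nat.card M := Nat.card_pos
    exact_mod_cast this.ne'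
  intro z hz
  have hnorm : ∀ u ∈ M, ∀ g ∈ Z, u * g * u⁻¹ ∈ Z := by
    intro u hu g hg
    rw [← hc g hg u hu]; simpa using hg
  obtain ⟨a, t, ha, ht, -, e1, -, e2⟩ := _root_.FI.Lib.lE3 Γ Z M hZM hnorm χ hχM ν hν hov
  have hz1 : χ z = χ 1 * ν z := by
    have h := e2 z hz
    have h2 : ∑ u : M, ν ((u : Γ) * z * (u : Γ)⁻¹) = (Nat.card M : ℂ) * ν z := by
      have : ∀ u : M, ν ((u : Γ) * z * (u : Γ)⁻¹) = ν z := by
        intro u
        congr 1
        rw [← hc z hz u u.2]; simp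
      rw [Finset.sum_congr rfl (fun u _ => this u), Finset.sum_const, nsmul_eq_mul,
        Finset.card_univ, Nat.card_eq_fintype_card]
    rw [h2] at h
    have e1' : χ 1 = a * t := by rw [e1, hν1, mul_one]
    have h3 : (Nat.card M : ℂ) * χ z = (Nat.card M : ℂ) * (χ 1 * ν z) := by
      rw [h, e1']; ring
    exact mul_left_cancel₀ hM0 h3
  refine ⟨hz1, fun x => ?_⟩
  by_cases hx : x ∈ M
  · have h := (_root_.FI.Lib.lSC M (fun n : M => χ n) s6 (fun n : M => χ n) s6
      ⟨z, hZM hz⟩ ⟨x, hx⟩).2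
    have h2 : ∑ a : M, (fun n : M => χ n) (a * ⟨z, hZM hz⟩ * a⁻¹ * ⟨x, hx⟩)
        = (Nat.card M : ℂ) * χ (z * x) := by
      have : ∀ a : M, (fun n : M => χ n) (a * ⟨z, hZM hz⟩ * a⁻¹ * ⟨x, hx⟩) = χ (z * x) := by
        intro u
        have : (u * ⟨z, hZM hz⟩ * u⁻¹ * ⟨x, hx⟩ : M) = ⟨z * x, M.mul_mem (hZM hz) hx⟩ := by
          apply Subtype.ext
          push_cast
          rw [← hc z hz u u.2]; simp
        simp only [this]
      rw [Finset.sum_congr rfl (fun u _ => this u), Finset.sum_const, nsmul_eq_mul,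
        Finset.card_univ, Nat.card_eq_fintype_card]
    rw [h2] at h
    have h3 : (Nat.card M : ℂ) * χ (z * x) = (Nat.card M : ℂ) * (ν z * χ x) := by
      rw [h]
      simp only [OneMemClass.coe_one]
      rw [hz1]
      field_simp
    exact mul_left_cancel₀ hM0 h3
  · have hx' : z * x ∉ M := by
      intro h
      apply hx
      have := M.mul_mem (M.inv_mem (hZM hz)) h
      simpa using this
    rw [s1 _ hx', s1 _ hx, mul_zero]

/-- the regular character -/
theorem regchar {Γ : Type} [Group Γ] [Fintype Γ] (M : Subgroup Γ) (fs : Finset (Γ → ℂ))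
    (hfs : ∀ θ, θ ∈ fs ↔ θ ∈ IrrS M) (x : Γ) :
    ∑ χ ∈ fs, χ 1 * χ x = if x = 1 then (Nat.card M : ℂ) else 0 := by
  have key : (fun x => ∑ χ ∈ fs, χ 1 * χ x - if x = 1 then (Nat.card M : ℂ) else 0) = 0 := by
    apply _root_.FI.Lib.lS3 Γ M
    · intro g hg
      have hg1 : g ≠ 1 := by rintro rfl; exact hg M.one_mem
      simp only [hg1, if_false, sub_zero]
      apply Finset.sum_eq_zero
      intro χ hχ
      rw [(_root_.FI.Lib.lS1 Γ M χ ((hfs χ).1 hχ)).1 g hg, mul_zero]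
    · intro n hn g
      have hg1 : n * g * n⁻¹ = 1 ↔ g = 1 := by
        constructor
        · intro h
          have : g = n⁻¹ * (n * g * n⁻¹) * n := by group
          rw [this, h]; group
        · rintro rfl; group
      simp only [hg1]
      congr 1
      apply Finset.sum_congr rfl
      intro χ hχ
      rw [(_root_.FI.Lib.lS1 Γ M χ ((hfs χ).1 hχ)).2.1 n hn g]
    · intro θ hθ
      obtain ⟨s1, s2, ⟨d, hd, hd1⟩, s4, s5, s6⟩ := _root_.FI.Lib.lS1 Γ M θ hθ
      have hA : ∑ g, (∑ χ ∈ fs, χ 1 * χ g) * conj (θ g) = (Nat.card M : ℂ) * θ 1 := by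
        have : ∀ g, (∑ χ ∈ fs, χ 1 * χ g) * conj (θ g) = ∑ χ ∈ fs, χ 1 * (χ g * conj (θ g)) := by
          intro g
          rw [Finset.sum_mul]
          apply Finset.sum_congr rfl
          intro χ _; ring
        rw [Finset.sum_congr rfl (fun g _ => this g), Finset.sum_comm]
        have h2 : ∀ χ ∈ fs, ∑ g, χ 1 * (χ g * conj (θ g))
            = if χ = θ then (Nat.card M : ℂ) * θ 1 else 0 := by
          intro χ hχ
          rw [← Finset.mul_sum, _root_.FI.Lib.lS2 Γ M χ θ ((hfs χ).1 hχ) hθ]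
          split_ifs with h
          · rw [h]; ring
          · ring
        rw [Finset.sum_congr rfl h2, Finset.sum_ite_eq' fs θ]
        rw [if_pos ((hfs θ).2 hθ)]
      have hB : ∑ g, (if g = 1 then (Nat.card M : ℂ) else 0) * conj (θ g)
          = (Nat.card M : ℂ) * θ 1 := by
        rw [Finset.sum_eq_single (1 : Γ)]
        · rw [if_pos rfl, hd1]; simp
        · intro b _ hb; rw [if_neg hb, zero_mul]
        · intro h; exact absurd (Finset.mem_univ _) h
      have : ∀ g, (∑ χ ∈ fs, χ 1 * χ g - if g = 1 then (Nat.card M : ℂ) else 0) * conj (θ g)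
          = (∑ χ ∈ fs, χ 1 * χ g) * conj (θ g)
            - (if g = 1 then (Nat.card M : ℂ) else 0) * conj (θ g) := by
        intro g; ring
      rw [Finset.sum_congr rfl (fun g _ => this g), Finset.sum_sub_distrib, hA, hB, sub_self]
  have := congrFun key x
  simp only [Pi.zero_apply] at this
  exact sub_eq_zero.1 this

/-- row SSQ -/
theorem pf_SSQ (h1 : T_ABL) : T_SSQ := by
  intro Γ _ _ Z M hZM hc ν hν
  obtain ⟨fs, hfs, -⟩ := _root_.FI.Lib.lS9 Γ M
  have hν1 : ν 1 = 1 := (h1 Γ Z (fun a ha b hb => hc a ha b (hZM hb)) ν hν).1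
  obtain ⟨n1, -, -, -, -, -⟩ := _root_.FI.Lib.lS1 Γ Z ν hν
  have hset : Ab M ν = ↑(fs.filter fun χ => Over χ ν) := by
    ext χ
    simp only [Finset.coe_filter, Set.mem_ofPred_eq, hfs]
    rfl
  rw [hset, finsum_mem_coe_finset]
  have hZ0 : (Nat.card Z : ℂ) ≠ 0 := by
    have : 0 < Nat.card Z := Nat.card_pos
    exact_mod_cast this.ne'
  have hS2 := _root_.FI.Lib.lS2 Γ Z ν ν hν hν
  rw [if_pos rfl] at hS2
  -- the sum over `g` for one character
  have hone : ∀ χ ∈ fs, ∑ g, χ g * conj (ν g) =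
      if Over χ ν then χ 1 * (Nat.card Z : ℂ) else 0 := by
    intro χ hχ
    split_ifs with ho
    · have hab : χ ∈ Ab M ν := ⟨(hfs χ).1 hχ, ho⟩
      rw [← hS2, Finset.mul_sum]
      apply Finset.sum_congr rfl
      intro g _
      by_cases hg : g ∈ Z
      · rw [(cenmul h1 Z M hZM hc ν hν χ hab g hg).1]; ring
      · rw [n1 g hg]; simp
    · have : ¬ (∑ g : Γ, χ g * starRingEnd ℂ (ν g) ≠ 0) := ho
      exact not_not.1 this
  have htot : ∑ χ ∈ fs, χ 1 * ∑ g, χ g * conj (ν g) = (Nat.card M : ℂ) := by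
    have : ∀ χ ∈ fs, χ 1 * ∑ g, χ g * conj (ν g) = ∑ g, (χ 1 * χ g) * conj (ν g) := by
      intro χ _
      rw [Finset.mul_sum]
      apply Finset.sum_congr rfl
      intro g _; ring
    rw [Finset.sum_congr rfl this, Finset.sum_comm]
    have h3 : ∀ g : Γ, ∑ χ ∈ fs, (χ 1 * χ g) * conj (ν g)
        = if g = 1 then (Nat.card M : ℂ) else 0 := by
      intro g
      rw [← Finset.sum_mul, regchar M fs hfs g]
      split_ifs with h
      · rw [h, hν1]; simp
      · simp
    rw [Finset.sum_congr rfl (fun g _ => h3 g), Finset.sum_ite_eq' Finset.univ (1 : Γ)]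
    simp
  have htot2 : (∑ χ ∈ fs.filter (fun χ => Over χ ν), χ 1 * χ 1) * (Nat.card Z : ℂ)
      = (Nat.card M : ℂ) := by
    rw [← htot, Finset.sum_filter, Finset.sum_mul]
    apply Finset.sum_congr rfl
    intro χ hχ
    rw [hone χ hχ]
    split_ifs with h
    · ring
    · ring
  have hidx : (Z.relIndex M : ℂ) * (Nat.card Z : ℂ) = (Nat.card M : ℂ) := by
    have h5 := Subgroup.relIndex_mul_relIndex (⊥ : Subgroup Γ) Z M bot_le hZM
    rw [Subgroup.relIndex_bot_left, Subgroup.relIndex_bot_left, mul_comm] at h5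
    exact_mod_cast h5
  have : (∑ χ ∈ fs.filter (fun χ => Over χ ν), χ 1 * χ 1) * (Nat.card Z : ℂ)
      = (Z.relIndex M : ℂ) * (Nat.card Z : ℂ) := by rw [htot2, hidx]
  exact mul_right_cancel₀ hZ0 this

end Pool.Agent.H46.FI
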